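import Pool.Agent.H88.TransfDefs
import Pool.Agent.H88.Transf

set_option autoImplicit false

namespace Pool.Agent.Results.MP_0638d8_an.Counter

open Pool.Agent.H88.Transf Pool.Agent.H88.BernMix MeasureTheory

theorem result : ∃ (S : Type) (_ : MetricSpace S) (_ : MeasurableSpace S) (P : Measure S)
    (ψ : S → S) (A : Set S), IsProbabilityMeasure P ∧
    (∀ (x : S) (r : ℝ), 0 < r → MeasurableSet (Metric.ball x r) ∧ 0 < P (Metric.ball x r)) ∧
    Mixing P ψ ∧ (∀ B, MeasurableSet B → MeasurableSet (ψ '' B)) ∧ MeasurableSet A ∧ 0 < P A ∧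
    rho (Set.univ : Set S) = 1 ∧ ∀ n : ℕ, rho (ψ^[n] '' A) = 0 ∧ essRho P (ψ^[n] '' A) = 0 := by
  obtain ⟨μ, hμ1, hμ⟩ : ∃ μ : Measure ℕ, IsProbabilityMeasure μ ∧ ∀ k, μ {k} ≠ 0 := by
    refine ⟨ProbabilityTheory.geometricMeasure ⟨1 / 2, by norm_num, by norm_num⟩, inferInstance,
      fun k h => ?_⟩
    have := ProbabilityTheory.geometricMeasure_real_singleton_pos
      (p := ⟨1 / 2, by norm_num, by norm_num⟩) (by simp [Subtype.ext_iff])
      (by simp [Subtype.ext_iff]) k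
    rw [Measure.real, h] at this
    simp at this
  obtain ⟨f, hf⟩ := exists_f μ
  have hm : MeasurableSet {x : ℤ → ℕ | ∀ i, x i ≤ f i} := by measurability
  refine ⟨ℤ → ℕ, ms (th_anti f) (th_pos f), inferInstance, Measure.infinitePi fun _ => μ, sh,
    {x | ∀ i, x i ≤ f i}, inferInstance, fun x r hr => ball_ok μ hμ f x r hr,
    ⟨sh_mp μ, sh_mixing μ⟩, sh_image, hm, hf, rho_univ f, fun n => ?_⟩
  have h0 := rho_zero f n (sh^[n] '' {x | ∀ i, x i ≤ f i}) (by
    rintro _ ⟨x, hx, rfl⟩ i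
    rw [sh_iter]; exact hx _)
  refine ⟨h0, le_antisymm ?_ zero_le⟩
  have hmn : MeasurableSet (sh^[n] '' {x : ℤ → ℕ | ∀ i, x i ≤ f i}) := by
    clear h0
    induction n with
    | zero => simpa using hm
    | succ n ih => rw [Function.iterate_succ', Set.image_comp]; exact sh_image _ ih
  exact (iInf₂_le _ ⟨subset_rfl, hmn, rfl⟩).trans h0.le

end Pool.Agent.Results.MP_0638d8_an.Counter
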